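import Pool.Agent.R748.Rev5

/-!
# Increasing half period function does not force cut loci into the opposite half meridian

The definitions (polar coordinates on the unit sphere, the metric `dr² + m(r)² dθ²`, its distance,
its geodesics, the cut locus, the half period function) are in `Pool.Agent.R748.RevDefs`.
-/

set_option autoImplicit false

namespace Pool.Agent.Results.MP_e92360_gt.EquatorCutPoint

open Real Set
open Pool.Agent.R748.Rev

/-- There is a 2-sphere of revolution, symmetric in the equator and with `m' > 0` up to the
equator, whose half period function is `ν ↦ π (1 + (ν / m(π/2))³)`, hence strictly increasing, and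
a point `p` of the half meridian `θ = 0` (a point of the equator) whose cut locus is not contained
in the opposite half meridian `θ = π`. -/
theorem result : ∃ m : ℝ → ℝ, IsProfile m ∧
    (∀ ν ∈ Ioo 0 (m (π / 2)), halfPeriod m ν = π * (1 + (ν / m (π / 2)) ^ 3)) ∧
    StrictMonoOn (halfPeriod m) (Ioo 0 (m (π / 2))) ∧
    ∃ p ∈ halfMeridian 0, ¬ cutLocus m p ⊆ halfMeridian π := by
  refine ⟨mm, isProfile_mm, fun ν hν => halfPeriod_eq hν, halfPeriod_strictMono,
    pt (π / 2) 0, ⟨π / 2, ⟨by positivity, by linarith [pi_pos]⟩, rfl⟩, ?_⟩
  intro h
  obtain ⟨q, hq, hq'⟩ := main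
  exact hq' (h hq)

end Pool.Agent.Results.MP_e92360_gt.EquatorCutPoint
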